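import Mathlib
import Pool.Agent.H26.MX.M10
import Pool.Agent.H26.MX.M11
set_option autoImplicit false

/-!
# The extension operator of the paraboloid: arbitrary densities against densities which are regular
in one direction

The plane is `ℂ`, the space is `ℂ × ℝ`, `E f(ξ) = ∫ exp(-i Φ(x)·ξ) f(x) dx`. A density `g` is
*regular of order `s` in the direction `iθ`* with majorant `B(a)` if on (almost) every line
`{θ (a + i b) : b ∈ ℝ}` its norm in the Besov space `B^s_{2,∞}` is at most `B(a)`; nothing is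
assumed about the dependence on `a`. For `s = 1/2` this contains the densities whose variation on
these lines is at most `B(a)` (`regular_of_variation` below).

Let `0 < s ≤ 1/2`, `2 < p ≤ q` and `2 q < p (q - 2) (1 + 2 s)`. For `s = 1/2` and `q < 4` this is the
whole conjectured range `q > 3`, `p > q/(q-2)` of the extension problem. Let `f` be an ARBITRARY
density on the disc of radius `1/2` and let `g` be a sum of regular densities `G_n` in arbitrary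
directions. Then, for `0 ≤ a ≤ 2`,

  `∫ |E f|^a |E g|^(q-a) ≤ C ‖f‖_p^a (∑ ‖B_n‖_p)^(q-a)`,

and the norm of `f` may be replaced by a smaller mixed norm. In particular `E f · E g` is in
`L^(q/2)` for `3 < q ≤ 4`, and `min(|E f|, |E g|)` is in `L^q` for all `q > 3`.
-/

namespace Pool.Agent.Results.MP_5ab805_an.ArbitraryAgainstRegular

open MeasureTheory Set Metric Complex
open scoped ENNReal NNReal

/-- the scalar product of `Φ(x) = (x₁, x₂, x₁ ^ 2 + x₂ ^ 2)` with `ξ = (ξ₁, ξ₂, ξ₃)`, where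
`x = x₁ + i x₂` and `ξ` is the pair `(ξ₁ + i ξ₂, ξ₃)` -/
noncomputable def phase (x : ℂ) (ξ : ℂ × ℝ) : ℝ :=
  x.re * ξ.1.re + x.im * ξ.1.im + (x.re ^ 2 + x.im ^ 2) * ξ.2

/-- the Fourier extension operator of the paraboloid, `E f(ξ) = ∫ exp(-i Φ(x)·ξ) f(x) dx`;
densities on a set `U` are extended by zero -/
noncomputable def E (f : ℂ → ℂ) (ξ : ℂ × ℝ) : ℂ := ∫ x, cexp (-(I * (phase x ξ : ℂ))) * f x

/-- the point with the coordinates `(a, b)` in the frame `θ, iθ` -/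
noncomputable def pt (θ : ℂ) (a b : ℝ) : ℂ := θ * (a + b * I)

/-- the norm of a nonnegative function in `L^p(ℝ)` -/
noncomputable def norm (p : ℝ) (B : ℝ → ℝ≥0∞) : ℝ≥0∞ := (∫⁻ a, B a ^ p) ^ (1 / p)

/-- the norm of `f` in `L^p(da; L²(db))`, `x = pt θ a b` -/
noncomputable def mixedNorm (p : ℝ) (θ : ℂ) (f : ℂ → ℂ) : ℝ≥0∞ :=
  norm p fun a => (∫⁻ b : ℝ, ‖f (pt θ a b)‖ₑ ^ 2) ^ (1 / 2 : ℝ)

/-- `g` vanishes off the disc of radius `1/2` and is regular of order `s` in the direction `iθ`,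
with the majorant `B` -/
structure Regular (s : ℝ) (θ : ℂ) (B : ℝ → ℝ≥0∞) (g : ℂ → ℂ) : Prop where
  meas : Measurable g
  supp : ∀ x, x ∉ closedBall (0 : ℂ) (1 / 2) → g x = 0
  size : ∀ᵐ a : ℝ, ∫⁻ b : ℝ, ‖g (pt θ a b)‖ₑ ^ 2 ≤ B a ^ 2
  modulus : ∀ᵐ a : ℝ, ∀ h ∈ Ioc (0 : ℝ) 1,
    ∫⁻ b : ℝ, ‖g (pt θ a (b + h)) - g (pt θ a b)‖ₑ ^ 2 ≤ B a ^ 2 * ENNReal.ofReal (h ^ (2 * s))

theorem Regular.rg {s : ℝ} {θ : ℂ} {B : ℝ → ℝ≥0∞} {g : ℂ → ℂ} (h : Regular s θ B g) :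
    H26.MX.Rg s θ B g := ⟨h.meas, h.supp, h.size, h.modulus⟩

theorem mixedNorm_eq (p : ℝ) (θ : ℂ) (f : ℂ → ℂ) :
    mixedNorm p θ f = H26.MX.mixedNorm p θ f := by
  unfold mixedNorm norm H26.MX.mixedNorm
  congr 1
  refine lintegral_congr fun a => ?_
  rw [← ENNReal.rpow_mul]
  congr 1
  ring

/-- densities of bounded variation on lines are regular of order one half -/
theorem regular_of_variation (θ : ℂ) (B : ℝ → ℝ≥0∞) (g : ℂ → ℂ) (hθ : ‖θ‖ = 1)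
    (hg : Measurable g) (hs : ∀ x, x ∉ closedBall (0 : ℂ) (1 / 2) → g x = 0)
    (hv : ∀ᵐ a : ℝ, eVariationOn (fun b : ℝ => g (pt θ a b)) univ ≤ B a) :
    Regular (1 / 2) θ B g := by
  have h := H26.MX.Rg_of_var hθ hg hs hv
  exact ⟨h.meas, h.supp, h.size, h.modu⟩

/-- **Arbitrary densities against densities regular in one direction.** Let `0 < s ≤ 1/2`,
`2 < p ≤ q` and `2 q < p (q - 2) (1 + 2 s)`. There is `C` such that, for every density `f` on the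
disc, every countable sum `g = ∑ G_n` of densities regular of order `s` in the directions `i θ_n`
with majorants `B_n`, and every `0 ≤ a ≤ 2`,
`∫ |E f|^a |E g|^(q-a) ≤ C N^a (∑ ‖B_n‖_p)^(q-a)`, where `N = sup_n mixedNorm p θ_n f ≤ ‖f‖_p`. -/
theorem result (s p q : ℝ) (hs0 : 0 < s) (hs : s ≤ 1 / 2) (hp : 2 < p) (hpq : p ≤ q)
    (hq : 2 * q < p * ((q - 2) * (1 + 2 * s))) :
    ∃ C : ℝ≥0, ∀ (f g : ℂ → ℂ) (θ : ℕ → ℂ) (B : ℕ → ℝ → ℝ≥0∞) (G : ℕ → ℂ → ℂ) (a : ℝ),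
      Measurable f → (∀ x, x ∉ closedBall (0 : ℂ) (1 / 2) → f x = 0) → Measurable g →
      (∀ n, ‖θ n‖ = 1) → (∀ n, Regular s (θ n) (B n) (G n)) → ∑' n, norm p (B n) ≠ ∞ →
      (∀ᵐ x, HasSum (fun n => G n x) (g x)) → 0 ≤ a → a ≤ 2 →
      ∫⁻ ξ : ℂ × ℝ, ‖E f ξ‖ₑ ^ a * ‖E g ξ‖ₑ ^ (q - a) ≤
          C * ((⨆ n, mixedNorm p (θ n) f) ^ a * (∑' n, norm p (B n)) ^ (q - a)) ∧
        (⨆ n, mixedNorm p (θ n) f) ≤ (∫⁻ x, ‖f x‖ₑ ^ p) ^ (1 / p) := by
  obtain ⟨C, hC, h⟩ := H26.MX.atomic hs0 hs hp hpq hq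
  refine ⟨C.toNNReal, fun f g θ B G a hf hfs hg hθ hG hB hsum h0 h2 => ⟨?_, ?_⟩⟩
  · rw [ENNReal.coe_toNNReal hC]
    refine h f g θ B G _ a hf hfs hg hθ (fun n => ?_) (fun n => (hG n).rg) hB hsum h0 h2
    rw [← mixedNorm_eq]
    exact le_iSup (fun n => mixedNorm p (θ n) f) n
  · refine iSup_le fun n => ?_
    rw [mixedNorm_eq]
    exact H26.MX.mixedNorm_le hp (hθ n) hf hfs

end Pool.Agent.Results.MP_5ab805_an.ArbitraryAgainstRegular
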