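import Mathlib
import Pool.Agent.H26.HD.Asm
import Pool.Agent.H26.HD.Harm
set_option autoImplicit false

/-!
# The extension estimate for harmonic densities on convex sets

The plane is identified with `ℂ` and the space with `ℂ × ℝ`. For every `q > 3` the Fourier
extension operator of the paraboloid is bounded, from `L^q(U)` to `L^q` of the space, on the
harmonic functions on `U`, whenever `U` is a union of `N` open convex subsets of the disc of radius
`1/2`; the constant depends on `q` and `N` only. More generally the estimate holds for all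
densities whose local oscillation, at the scale of the distance to the complement of `U`, is
controlled by their local means with a Hölder exponent `s` such that `q (1 + 2 s) > 4`.
-/

namespace Pool.Agent.Results.MP_5ab805_an.HarmonicDensities

open MeasureTheory Set Metric Complex
open scoped ENNReal NNReal

/-- the scalar product of `Φ(x) = (x₁, x₂, x₁ ^ 2 + x₂ ^ 2)` with `ξ = (ξ₁, ξ₂, ξ₃)`, where
`x = x₁ + i x₂` and `ξ` is the pair `(ξ₁ + i ξ₂, ξ₃)` -/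
noncomputable def phase (x : ℂ) (ξ : ℂ × ℝ) : ℝ :=
  x.re * ξ.1.re + x.im * ξ.1.im + (x.re ^ 2 + x.im ^ 2) * ξ.2

/-- the Fourier extension operator of the paraboloid,
`E f(ξ) = ∫_U exp(-i Φ(x)·ξ) f(x) dx` -/
noncomputable def E (U : Set ℂ) (f : ℂ → ℂ) (ξ : ℂ × ℝ) : ℂ :=
  ∫ x in U, cexp (-(I * (phase x ξ : ℂ))) * f x

/-- the local size `(ρ⁻² ∫_{|z - x| < ρ} |f(z)|^q dz)^{1/q}` -/
noncomputable def localSize (q : ℝ) (f : ℂ → ℂ) (x : ℂ) (ρ : ℝ) : ℝ≥0∞ :=
  ((ENNReal.ofReal (ρ ^ 2))⁻¹ * ∫⁻ z in ball x ρ, ‖f z‖ₑ ^ q) ^ (1 / q)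

/-- `f` is continuous on `U`, and whenever the disc of centre `x` and radius `ρ` lies in `U`, the
value `|f(x)|` is at most `K` times the local size of `f` in that disc, and
`|f(y) - f(x)|` is at most `K (|y - x| / ρ)^s` times that local size for `|y - x| ≤ ρ / 2` -/
def LocallyRegular (q s K : ℝ) (U : Set ℂ) (f : ℂ → ℂ) : Prop :=
  ContinuousOn f U ∧
  (∀ (x : ℂ) (ρ : ℝ), 0 < ρ → ball x ρ ⊆ U →
    ‖f x‖ₑ ≤ ENNReal.ofReal K * localSize q f x ρ) ∧
  (∀ (x y : ℂ) (ρ : ℝ), 0 < ρ → ball x ρ ⊆ U → ‖y - x‖ ≤ ρ / 2 →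
    ‖f y - f x‖ₑ ≤ ENNReal.ofReal (K * (‖y - x‖ / ρ) ^ s) * localSize q f x ρ)

theorem E_eq (U : Set ℂ) (f : ℂ → ℂ) : E U f = H26.HD.ext U f := rfl

theorem lr {q s K : ℝ} {U : Set ℂ} {f : ℂ → ℂ} (h : LocallyRegular q s K U f) :
    H26.HD.Regular q s K U f := ⟨h.1, h.2.1, h.2.2⟩

/-- a larger constant -/
theorem mono_K {q s K K' : ℝ} {U : Set ℂ} {f : ℂ → ℂ} (h : H26.HD.Regular q s K U f)
    (hK : K ≤ K') : H26.HD.Regular q s K' U f := by
  refine ⟨h.cont, ?_, ?_⟩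
  · intro x ρ hρ hb
    refine (h.size x ρ hρ hb).trans ?_
    gcongr
  · intro x y ρ hρ hb hxy
    refine (h.hold x y ρ hρ hb hxy).trans ?_
    gcongr

theorem to_norm {q : ℝ} (hq : 3 < q) {C : ℝ≥0} {U : Set ℂ} {f : ℂ → ℂ}
    (h : ∫⁻ z in U, ‖f z‖ₑ ^ q ≠ ∞ → H26.HD.en q U f ≤ C * ∫⁻ z in U, ‖f z‖ₑ ^ q) :
    eLpNorm (E U f) (ENNReal.ofReal q) volume ≤
      ((C + 1 : ℝ≥0) : ℝ≥0∞) * eLpNorm f (ENNReal.ofReal q) (volume.restrict U) := by
  have hq0 : ENNReal.ofReal q ≠ 0 := by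
    simp only [ne_eq, ENNReal.ofReal_eq_zero, not_le]; linarith
  rw [eLpNorm_eq_lintegral_rpow_enorm_toReal hq0 ENNReal.ofReal_ne_top,
    eLpNorm_eq_lintegral_rpow_enorm_toReal hq0 ENNReal.ofReal_ne_top,
    ENNReal.toReal_ofReal (by linarith)]
  by_cases hfin : ∫⁻ z in U, ‖f z‖ₑ ^ q = ∞
  · rw [hfin, ENNReal.top_rpow_of_pos (by positivity), ENNReal.mul_top]
    · exact le_top
    · simp
  · have h1 := h hfin
    unfold H26.HD.en at h1
    calc (∫⁻ ξ : ℂ × ℝ, ‖E U f ξ‖ₑ ^ q) ^ (1 / q) ≤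
          (((C + 1 : ℝ≥0) : ℝ≥0∞) ^ q * ∫⁻ z in U, ‖f z‖ₑ ^ q) ^ (1 / q) := by
          apply ENNReal.rpow_le_rpow _ (by positivity)
          refine h1.trans ?_
          gcongr
          calc (C : ℝ≥0∞) ≤ ((C + 1 : ℝ≥0) : ℝ≥0∞) := by
                exact_mod_cast le_add_of_nonneg_right zero_le_one
            _ = ((C + 1 : ℝ≥0) : ℝ≥0∞) ^ (1 : ℝ) := (ENNReal.rpow_one _).symm
            _ ≤ ((C + 1 : ℝ≥0) : ℝ≥0∞) ^ q := by
                apply ENNReal.rpow_le_rpow_of_exponent_le _ (by linarith)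
                exact_mod_cast le_add_of_nonneg_left bot_le
      _ = (((C + 1 : ℝ≥0) : ℝ≥0∞) ^ q) ^ (1 / q) * (∫⁻ z in U, ‖f z‖ₑ ^ q) ^ (1 / q) :=
          ENNReal.mul_rpow_of_nonneg _ _ (by positivity)
      _ = _ := by
          rw [← ENNReal.rpow_mul, mul_one_div_cancel (by linarith), ENNReal.rpow_one]

theorem regular_case (q s K : ℝ) (N : ℕ) (hq : 3 < q) (hs : 0 < s)
    (hqs : 4 < q * (1 + 2 * s)) : ∃ C : ℝ≥0, ∀ V : Fin N → Set ℂ,
      (∀ i, IsOpen (V i) ∧ Convex ℝ (V i) ∧ V i ⊆ ball 0 (1 / 2)) →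
      ∀ f : ℂ → ℂ, H26.HD.Regular q s K (⋃ i, V i) f →
        eLpNorm (E (⋃ i, V i) f) (ENNReal.ofReal q) volume ≤
          C * eLpNorm f (ENNReal.ofReal q) (volume.restrict (⋃ i, V i)) := by
  obtain ⟨s', hs', hss, hs2, hqs'⟩ : ∃ s' : ℝ, 0 < s' ∧ s' ≤ s ∧ 2 * s' < 1 ∧
      4 < q * (1 + 2 * s') := by
    by_cases h : 2 * s < 1
    · exact ⟨s, hs, le_rfl, h, hqs⟩
    · refine ⟨1 / 5, by norm_num, by linarith, by norm_num, by linarith⟩
  obtain ⟨C, hC⟩ := H26.HD.est_union q s' (max K 0) hq hs' hs2 hqs' (le_max_right _ _) N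
  refine ⟨C + 1, ?_⟩
  intro V hV f hf
  apply to_norm hq
  intro hfin
  apply hC V _ f ((mono_K hf (le_max_left K 0)).mono_exp (le_max_right _ _) hss hs') hfin
  intro i
  exact ⟨(hV i).1, (hV i).2.1, (hV i).2.2.trans ball_subset_closedBall⟩

/-- **The extension estimate for harmonic densities on convex sets.**
Let `q > 3` and let `U` be a union of `N` open convex subsets of the disc of radius `1/2` about
`0`. Then `‖E f‖_{L^q} ≤ C ‖f‖_{L^q(U)}` for all complex harmonic functions `f` on `U` (in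
particular for all holomorphic ones), with a constant `C` which depends on `q` and `N` only.
More generally, if `s > 0` and `q (1 + 2 s) > 4`, the same holds, with `C = C(q, s, K, N)`, for all
`f` which are `LocallyRegular q s K U`. -/
theorem result :
    (∀ (q : ℝ) (N : ℕ), 3 < q → ∃ C : ℝ≥0, ∀ V : Fin N → Set ℂ,
      (∀ i, IsOpen (V i) ∧ Convex ℝ (V i) ∧ V i ⊆ ball 0 (1 / 2)) →
      ∀ f : ℂ → ℂ, InnerProductSpace.HarmonicOnNhd f (⋃ i, V i) →
        eLpNorm (E (⋃ i, V i) f) (ENNReal.ofReal q) volume ≤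
          C * eLpNorm f (ENNReal.ofReal q) (volume.restrict (⋃ i, V i))) ∧
    (∀ (q s K : ℝ) (N : ℕ), 3 < q → 0 < s → 4 < q * (1 + 2 * s) →
      ∃ C : ℝ≥0, ∀ V : Fin N → Set ℂ,
      (∀ i, IsOpen (V i) ∧ Convex ℝ (V i) ∧ V i ⊆ ball 0 (1 / 2)) →
      ∀ f : ℂ → ℂ, LocallyRegular q s K (⋃ i, V i) f →
        eLpNorm (E (⋃ i, V i) f) (ENNReal.ofReal q) volume ≤
          C * eLpNorm f (ENNReal.ofReal q) (volume.restrict (⋃ i, V i))) := by
  refine ⟨?_, ?_⟩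
  · intro q N hq
    obtain ⟨C, hC⟩ := regular_case q 1 1024 N hq one_pos (by linarith)
    exact ⟨C, fun V hV f hf => hC V hV f (H26.HD.harmonic_regular hf (by linarith))⟩
  · intro q s K N hq hs hqs
    obtain ⟨C, hC⟩ := regular_case q s K N hq hs hqs
    exact ⟨C, fun V hV f hf => hC V hV f (lr hf)⟩

end Pool.Agent.Results.MP_5ab805_an.HarmonicDensities
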