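import Mathlib
import Pool.Agent.H26.MX.M10
import Pool.Agent.H26.MX.M11
set_option autoImplicit false

/-!
# A sharp maximal estimate for the extension operator of the paraboloid

The plane is `ℂ`, the space is `ℂ × ℝ`, `E g(ξ) = ∫ exp(-i Φ(x)·ξ) g(x) dx`. A density `g` is
*regular of order `s` in the direction `iθ`* with majorant `B(a)` if on (almost) every line
`{θ (a + i b) : b ∈ ℝ}` its norm in the Besov space `B^s_{2,∞}` is at most `B(a)`; nothing is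
assumed about the dependence on `a`. For `s = 1/2` this contains the densities whose variation on
these lines is at most `B(a)` (`regular_of_variation` below).

For such densities the supremum of `|E g|` over ALL translates in the direction `iθ` is controlled:
for `0 ≤ σ < s`, `2 < r ≤ m`, `1/m + 1/r < 1/2`, `1/m + 1/p < 1/2`

  `‖ (1 + |t|)^σ sup_v |E g(θ (u + i v), t)| ‖_{L^m_t L^r_u} ≤ C ‖B‖_p`.

In particular, if `2 < q` and `4 < q (1 + 2 s)` (for `s = 1/2`: for all `q > 2`), then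

  `∬ sup_v |E g(θ (u + i v), t)|^q du dt ≤ C ∫ B^q`,

that is `E g` is in `L^q`, with the bound of the extension problem, on every graph
`{(θ (u + i v(u, t)), t)}` over the plane spanned by `θ` and the vertical direction, uniformly in
the function `v`. The range `q > 2` is sharp (`g` the indicator of a disc).
-/

namespace Pool.Agent.Results.MP_5ab805_an.MaximalEstimate

open MeasureTheory Set Metric Complex
open scoped ENNReal NNReal

/-- the scalar product of `Φ(x) = (x₁, x₂, x₁ ^ 2 + x₂ ^ 2)` with `ξ = (ξ₁, ξ₂, ξ₃)`, where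
`x = x₁ + i x₂` and `ξ` is the pair `(ξ₁ + i ξ₂, ξ₃)` -/
noncomputable def phase (x : ℂ) (ξ : ℂ × ℝ) : ℝ :=
  x.re * ξ.1.re + x.im * ξ.1.im + (x.re ^ 2 + x.im ^ 2) * ξ.2

/-- the Fourier extension operator of the paraboloid, `E f(ξ) = ∫ exp(-i Φ(x)·ξ) f(x) dx`;
densities on a set `U` are extended by zero -/
noncomputable def E (f : ℂ → ℂ) (ξ : ℂ × ℝ) : ℂ := ∫ x, cexp (-(I * (phase x ξ : ℂ))) * f x

/-- the point with the coordinates `(a, b)` in the frame `θ, iθ` -/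
noncomputable def pt (θ : ℂ) (a b : ℝ) : ℂ := θ * (a + b * I)

/-- the maximal function of `E g` in the direction `iθ`: the supremum of `|E g|` over the line
through `(θ u, t)` parallel to `iθ` -/
noncomputable def maxE (θ : ℂ) (g : ℂ → ℂ) (u t : ℝ) : ℝ≥0∞ := ⨆ v : ℝ, ‖E g (pt θ u v, t)‖ₑ

/-- `g` vanishes off the disc of radius `1/2` and is regular of order `s` in the direction `iθ`,
with the majorant `B` -/
structure Regular (s : ℝ) (θ : ℂ) (B : ℝ → ℝ≥0∞) (g : ℂ → ℂ) : Prop where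
  meas : Measurable g
  supp : ∀ x, x ∉ closedBall (0 : ℂ) (1 / 2) → g x = 0
  size : ∀ᵐ a : ℝ, ∫⁻ b : ℝ, ‖g (pt θ a b)‖ₑ ^ 2 ≤ B a ^ 2
  modulus : ∀ᵐ a : ℝ, ∀ h ∈ Ioc (0 : ℝ) 1,
    ∫⁻ b : ℝ, ‖g (pt θ a (b + h)) - g (pt θ a b)‖ₑ ^ 2 ≤ B a ^ 2 * ENNReal.ofReal (h ^ (2 * s))

theorem Regular.rg {s : ℝ} {θ : ℂ} {B : ℝ → ℝ≥0∞} {g : ℂ → ℂ} (h : Regular s θ B g) :
    H26.MX.Rg s θ B g := ⟨h.meas, h.supp, h.size, h.modulus⟩

/-- densities of bounded variation on lines are regular of order one half -/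
theorem regular_of_variation (θ : ℂ) (B : ℝ → ℝ≥0∞) (g : ℂ → ℂ) (hθ : ‖θ‖ = 1)
    (hg : Measurable g) (hs : ∀ x, x ∉ closedBall (0 : ℂ) (1 / 2) → g x = 0)
    (hv : ∀ᵐ a : ℝ, eVariationOn (fun b : ℝ => g (pt θ a b)) univ ≤ B a) :
    Regular (1 / 2) θ B g := by
  have h := H26.MX.Rg_of_var hθ hg hs hv
  exact ⟨h.meas, h.supp, h.size, h.modu⟩

/-- **Sharp maximal estimate.** Let `0 < s ≤ 1/2`.
(1) For `0 ≤ σ < s`, `2 < r ≤ m`, `1 ≤ p`, `1/m + 1/r < 1/2`, `1/m + 1/p < 1/2` there is `C` such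
that `(∫ (∫ ((1+|t|)^σ maxE θ g u t)^r du)^(m/r) dt)^(1/m) ≤ C (∫ B^p)^(1/p)` for all `|θ| = 1` and
all `g` regular of order `s` in the direction `iθ` with the majorant `B`.
(2) Consequently, for `2 < q` and `4 < q (1 + 2 s)` there is `C` with
`∬ (maxE θ g u t)^q du dt ≤ C ∫ B^q` for all such `θ` and `g`. -/
theorem result (s : ℝ) (hs0 : 0 < s) (hs : s ≤ 1 / 2) :
    (∀ σ p r m : ℝ, 0 ≤ σ → σ < s → 2 < r → r ≤ m → 1 ≤ p → 1 / m + 1 / r < 1 / 2 →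
      1 / m + 1 / p < 1 / 2 → ∃ C : ℝ≥0, ∀ (θ : ℂ) (B : ℝ → ℝ≥0∞) (g : ℂ → ℂ), ‖θ‖ = 1 →
        Regular s θ B g →
        (∫⁻ t : ℝ, (∫⁻ u : ℝ, (ENNReal.ofReal ((1 + |t|) ^ σ) * maxE θ g u t) ^ r) ^ (m / r)) ^
          (1 / m) ≤ C * (∫⁻ a, B a ^ p) ^ (1 / p)) ∧
    ∀ q : ℝ, 2 < q → 4 < q * (1 + 2 * s) → ∃ C : ℝ≥0, ∀ (θ : ℂ) (B : ℝ → ℝ≥0∞) (g : ℂ → ℂ),
      ‖θ‖ = 1 → Regular s θ B g → ∫⁻ t : ℝ, ∫⁻ u : ℝ, maxE θ g u t ^ q ≤ C * ∫⁻ a, B a ^ q := by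
  constructor
  · intro σ p r m h0 hσ hr hrm hp h1 h2
    obtain ⟨C, hC, h⟩ := H26.MX.maximal hs0 hs h0 hσ hr hrm hp h1 h2
    refine ⟨C.toNNReal, fun θ B g hθ hg => ?_⟩
    rw [ENNReal.coe_toNNReal hC]
    have h3 := h θ B g hθ hg.rg
    have h4 : ∀ t u : ℝ, (⨆ v : ℝ, ENNReal.ofReal ((1 + |t|) ^ σ) *
        ‖H26.MX.E g (H26.MX.fr θ (u, v), t)‖ₑ) =
        ENNReal.ofReal ((1 + |t|) ^ σ) * maxE θ g u t := by
      intro t u
      rw [← ENNReal.mul_iSup]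
      rfl
    simp_rw [h4] at h3
    exact h3
  · intro q hq h
    obtain ⟨C, hC, hm⟩ := H26.MX.maximal_simple hs0 hs hq h
    refine ⟨C.toNNReal, fun θ B g hθ hg => ?_⟩
    rw [ENNReal.coe_toNNReal hC]
    exact hm θ B g hθ hg.rg

end Pool.Agent.Results.MP_5ab805_an.MaximalEstimate
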