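import Mathlib
import Pool.Agent.H26.HD.Equiv
set_option autoImplicit false

/-!
# Polynomials on simply connected domains decide the extension estimate

The plane is identified with `ℂ` and the space with `ℂ × ℝ`. For each exponent the extension
estimate of the paraboloid for all densities on the disc of radius `1/2` is equivalent to the
estimate, with a constant which does not depend on the domain, for the holomorphic functions on the
simply connected open subsets of the disc, and already to the estimate for the polynomials in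
`x₁ + i x₂` on the combs: the open subsets of the disc which contain its real diameter and, with
each point, the vertical segment between this point and the diameter.
-/

namespace Pool.Agent.Results.MP_5ab805_an.SimplyConnectedDomains

open MeasureTheory Set Metric Complex Filter Topology
open scoped ENNReal NNReal

/-- the scalar product of `Φ(x) = (x₁, x₂, x₁ ^ 2 + x₂ ^ 2)` with `ξ = (ξ₁, ξ₂, ξ₃)`, where
`x = x₁ + i x₂` and `ξ` is the pair `(ξ₁ + i ξ₂, ξ₃)` -/
noncomputable def phase (x : ℂ) (ξ : ℂ × ℝ) : ℝ :=
  x.re * ξ.1.re + x.im * ξ.1.im + (x.re ^ 2 + x.im ^ 2) * ξ.2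

/-- the Fourier extension operator of the paraboloid,
`E f(ξ) = ∫_U exp(-i Φ(x)·ξ) f(x) dx` -/
noncomputable def E (U : Set ℂ) (f : ℂ → ℂ) (ξ : ℂ × ℝ) : ℂ :=
  ∫ x in U, cexp (-(I * (phase x ξ : ℂ))) * f x

/-- the extension estimate for the density `f` on `U` with the constant `C` -/
def Estimate (q : ℝ) (C : ℝ≥0) (U : Set ℂ) (f : ℂ → ℂ) : Prop :=
  eLpNorm (E U f) (ENNReal.ofReal q) volume ≤
    C * eLpNorm f (ENNReal.ofReal q) (volume.restrict U)

/-- combs: open subsets of the disc which contain its real diameter and, with each point, the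
vertical segment between this point and the diameter -/
def IsComb (U : Set ℂ) : Prop :=
  IsOpen U ∧ U ⊆ ball 0 (1 / 2) ∧ (∀ x : ℝ, |x| < 1 / 2 → (x : ℂ) ∈ U) ∧
    ∀ z ∈ U, ∀ t ∈ Icc (0 : ℝ) 1, (z.re : ℂ) + ((t * z.im : ℝ) : ℂ) * I ∈ U

theorem comb_of {U : Set ℂ} (h : IsComb U) : H26.HD.Comb U := ⟨h.1, h.2.1, h.2.2.1, h.2.2.2⟩

theorem of_comb {U : Set ℂ} (h : H26.HD.Comb U) : IsComb U := ⟨h.op, h.sub, h.real, h.vert⟩

/-- the retraction of a comb on the diameter -/
noncomputable def push {U : Set ℂ} (h : IsComb U) : C(unitInterval × U, U) where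
  toFun p := ⟨((p.2 : ℂ).re : ℂ) + (((1 - (p.1 : ℝ)) * (p.2 : ℂ).im : ℝ) : ℂ) * I,
    h.2.2.2 _ p.2.2 _ ⟨by linarith [p.1.2.2], by linarith [p.1.2.1]⟩⟩
  continuous_toFun := by
    apply Continuous.subtype_mk
    fun_prop

theorem mem_real {U : Set ℂ} (h : IsComb U) (z : U) (t : unitInterval) :
    ((((1 - (t : ℝ)) * (z : ℂ).re : ℝ)) : ℂ) ∈ U := by
  apply h.2.2.1
  have h1 : |(z : ℂ).re| < 1 / 2 := H26.HD.abs_re_lt (h.2.1 z.2)
  rw [abs_mul, abs_of_nonneg (by linarith [t.2.2])]
  have h2 : 0 ≤ |(z : ℂ).re| := abs_nonneg _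
  nlinarith [t.2.1, t.2.2]

/-- the contraction of the diameter -/
noncomputable def shrink {U : Set ℂ} (h : IsComb U) : C(unitInterval × U, U) where
  toFun p := ⟨((((1 - (p.1 : ℝ)) * (p.2 : ℂ).re : ℝ)) : ℂ), mem_real h p.2 p.1⟩
  continuous_toFun := by
    apply Continuous.subtype_mk
    fun_prop

theorem contractible {U : Set ℂ} (h : IsComb U) : ContractibleSpace U := by
  rw [contractible_iff_id_nullhomotopic]
  refine ⟨⟨0, by simpa using h.2.2.1 0 (by norm_num)⟩, ?_⟩
  have h1 : (ContinuousMap.id U).Homotopic
      ((shrink h).comp ((ContinuousMap.const U (0 : unitInterval)).prodMk (ContinuousMap.id U))) := by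
    refine ⟨⟨push h, ?_, ?_⟩⟩
    · intro x
      apply Subtype.ext
      apply Complex.ext <;> simp [push]
    · intro x
      apply Subtype.ext
      apply Complex.ext <;> simp [push, shrink]
  have h2 : ((shrink h).comp ((ContinuousMap.const U (0 : unitInterval)).prodMk
      (ContinuousMap.id U))).Homotopic (ContinuousMap.const U
        (⟨0, by simpa using h.2.2.1 0 (by norm_num)⟩ : U)) := by
    refine ⟨⟨shrink h, ?_, ?_⟩⟩
    · intro x
      rfl
    · intro x
      apply Subtype.ext
      apply Complex.ext <;> simp [shrink]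
  exact h1.trans h2

/-- **Polynomials on simply connected domains decide the extension estimate.**
Combs are contractible, hence simply connected. For every exponent `1 ≤ q < ∞` the following are
equivalent: the extension estimate holds, with some constant, for all densities in `L^q` of the disc;
it holds, with a constant independent of the domain, for all holomorphic functions on all simply
connected open subsets of the disc; it holds, with a constant independent of the domain, for all
complex polynomials on all combs. -/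
theorem result :
    (∀ U : Set ℂ, IsComb U → ContractibleSpace U) ∧
    ∀ q : ℝ, 1 ≤ q → List.TFAE [
      ∃ C : ℝ≥0, ∀ f : ℂ → ℂ, MemLp f (ENNReal.ofReal q) (volume.restrict (ball 0 (1 / 2))) →
        Estimate q C (ball 0 (1 / 2)) f,
      ∃ C : ℝ≥0, ∀ U : Set ℂ, IsOpen U → U ⊆ ball 0 (1 / 2) → SimplyConnectedSpace U →
        ∀ f : ℂ → ℂ, DifferentiableOn ℂ f U → Estimate q C U f,
      ∃ C : ℝ≥0, ∀ U : Set ℂ, IsComb U → ∀ p : Polynomial ℂ, Estimate q C U (fun z => p.eval z)] := by
  refine ⟨fun U hU => contractible hU, ?_⟩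
  intro q hq
  have hq1 : (1 : ℝ≥0∞) ≤ ENNReal.ofReal q := by
    rw [← ENNReal.ofReal_one]
    exact ENNReal.ofReal_le_ofReal hq
  have hiff := H26.HD.comb_iff hq1 ENNReal.ofReal_ne_top
  tfae_have 1 → 2 := by
    rintro ⟨C, hC⟩
    refine ⟨C + 1, ?_⟩
    intro U hU hUB _ f hf
    have hm := hU.measurableSet
    have e1 : E U f = E (ball 0 (1 / 2)) (U.indicator f) := H26.HD.ext_ind hm hUB f
    have e2 := H26.HD.norm_ind hm hUB f (ENNReal.ofReal q)
    unfold Estimate
    by_cases hfin : eLpNorm f (ENNReal.ofReal q) (volume.restrict U) = ∞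
    · rw [hfin, ENNReal.mul_top (by simp)]
      exact le_top
    · have hmem : MemLp (U.indicator f) (ENNReal.ofReal q) (volume.restrict (ball 0 (1 / 2))) := by
        refine ⟨?_, ?_⟩
        · rw [aestronglyMeasurable_indicator_iff hm, Measure.restrict_restrict hm,
            inter_eq_self_of_subset_left hUB]
          exact hf.continuousOn.aestronglyMeasurable hm
        · have e3 : eLpNorm (U.indicator f) (ENNReal.ofReal q)
            (volume.restrict (ball 0 (1 / 2))) =
            eLpNorm f (ENNReal.ofReal q) (volume.restrict U) := e2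
          rw [e3]
          exact lt_top_iff_ne_top.2 hfin
      have h1 := hC _ hmem
      unfold Estimate at h1
      rw [e1]
      refine h1.trans ?_
      have e3 : eLpNorm (U.indicator f) (ENNReal.ofReal q)
            (volume.restrict (ball 0 (1 / 2))) =
            eLpNorm f (ENNReal.ofReal q) (volume.restrict U) := e2
      rw [e3]
      gcongr
      exact_mod_cast le_add_of_nonneg_right zero_le_one
  tfae_have 2 → 3 := by
    rintro ⟨C, hC⟩
    refine ⟨C, ?_⟩
    intro U hU p
    have := contractible hU
    exact hC U hU.1 hU.2.1 inferInstance _ (p.differentiable.differentiableOn)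
  tfae_have 3 → 1 := by
    rintro ⟨C, hC⟩
    exact hiff.2 ⟨C, fun U hU p => hC U (of_comb hU) p⟩
  tfae_finish

end Pool.Agent.Results.MP_5ab805_an.SimplyConnectedDomains
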